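import Mathlib
import Pool.Agent.H323.Semi.Defs
import Pool.Agent.H323.Semi.Main

/-!
# Smooth functions definable in `(ℝ, <, +, ·|(0,1)², ℤ)` are affine

All the definitions used in the statement are in `Pool.Agent.H323.Semi.Defs`.

Proof: by quantifier elimination for the real field, every definable set is a finite union of sets
given by an arbitrary condition on the integer parts and a semialgebraic condition on the fractional
parts.  Hence a continuous definable `f` satisfies, for every real `r`, a relation
`f (r + j) - f (r + i) ∈ ℤ` with `i < j` in a fixed finite set, and by Baire
`f (x + p) = f x + c` on an interval.  Moreover `f` is algebraic on bounded intervals, and smooth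
functions which are algebraic on bounded intervals are quasi-analytic; so the relation holds
everywhere, and `f x - (c / p) x` is a periodic function satisfying one polynomial equation, hence
takes finitely many values and is constant.
-/

namespace Pool.Agent.Results.MP_2d1a26_lc.SmoothAffine

open H323.Semi
open scoped ContDiff

theorem result (f : ℝ → ℝ) (hf : ContDiff ℝ ∞ f) (hd : DefinableFun f) :
    ∃ a b : ℝ, ∀ x : ℝ, f x = a * x + b :=
  smooth_definable_affine f hf hd

end Pool.Agent.Results.MP_2d1a26_lc.SmoothAffine
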